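import Pool.Agent.Helper426_GSC.DCT

set_option autoImplicit false
open CategoryTheory Pool.Agent.Helper426GSC

namespace Pool.Agent.Results.MP_b7bea3_al.MixedSyzygyType

/-- Let A be a non-semisimple finite-dimensional algebra over a field satisfying MixedAlg: there are
n, e and finitely many finitely generated modules G a such that every finitely generated module has
an n-th syzygy of the form Y1 × Y2, where Y1 has an exact sequence 0 → V1 → V0 → Y1 → 0 with V1 and
V0 finite direct sums of copies of the G a, and Y2 is a finite direct sum of modules generated by e
elements (for instance an n-Igusa-Todorov algebra). Then A is d-representation-finite for only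
finitely many d. -/
theorem result (k : Type) [Field k] (A : Type) [Ring A] [Algebra k A] (hk : Module.Finite k A)
    (hA : MixedAlg A) (hss : ¬ IsSemisimpleRing A) :
    Set.Finite {d : ℕ | 1 ≤ d ∧ ∃ M : ModuleCat.{0} A, ClusterTilting d M} :=
  dct_finite k A hA hss

end Pool.Agent.Results.MP_b7bea3_al.MixedSyzygyType
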