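import Pool.Agent.Helper426_GSC.DCT2

set_option autoImplicit false
open CategoryTheory Pool.Agent.Helper426GSC Pool.Agent.Helper426Tach

namespace Pool.Agent.Results.MP_b7bea3_al.NonSelfinjective

/-- Let A be a finite-dimensional algebra over a field k which is not selfinjective. Suppose that
infinitely many syzygies of the dual D(A) = Hom_k(A, k) are direct sums of modules of bounded size,
or that more than 2N syzygies of D(A), or more than 2N cosyzygies of A, are two-step over N modules.
Then A is d-representation-finite for only finitely many d. -/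
theorem result (k : Type) [Field k] (A : Type) [Ring A] [Algebra k A] (hk : Module.Finite k A)
    (hns : ¬ Module.Injective A A)
    (hyp : (∃ e, BddSyz (ModuleCat.of A (QD k A)) e) ∨
      ∃ (N : ℕ) (S : Finset ℕ) (J : ℕ), 2 * N < S.card ∧ (∀ j ∈ S, 1 ≤ j ∧ j ≤ J) ∧
        (SyzTwoStep (ModuleCat.of A (QD k A)) N S J ∨ CosyzTwoStep A N S J)) :
    Set.Finite {d : ℕ | 1 ≤ d ∧ ∃ M : ModuleCat.{0} A, ClusterTilting d M} :=
  dct_nonself k A hns hyp

end Pool.Agent.Results.MP_b7bea3_al.NonSelfinjective
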